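import Pool.Agent.W795.HE.Stm

/-!
Project HE, parts HE-TP and HE-GRW: the two-point inequality and the Gronwall inequality for
Leray-Hopf solutions.
-/

set_option autoImplicit false
set_option linter.unusedSectionVars false
set_option maxHeartbeats 4000000

open MeasureTheory Set Filter Topology
open scoped InnerProductSpace

namespace Pool.Agent.W991.HE

open H772R2.NSR (Frame)
open H772R2.NSG (LH dft Coef ii_of_int int_inner mem_cont)
open Pool.Agent.W795.TQ (Univ)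
open Pool.Agent.W795.HE

/-- Young's inequalities. -/
theorem young1 {X Q c : ℝ} (_hX : 0 ≤ X) (_hQ : 0 ≤ Q) :
    c * (Q * X ^ 3) ≤ X ^ 4 / 16 + 432 * (c * Q) ^ 4 := by
  set B := c * Q with hB
  have e : c * (Q * X ^ 3) = B * X ^ 3 := by rw [hB]; ring
  rw [e]
  nlinarith [sq_nonneg (X ^ 2 - 12 * B * X), sq_nonneg (X * B - 12 * B ^ 2),
    sq_nonneg (X ^ 2 - 144 * B ^ 2), sq_nonneg (X ^ 2 - 6 * B * X - 72 * B ^ 2),
    sq_nonneg (X - 12 * B), mul_nonneg (sq_nonneg X) (sq_nonneg (X - 12 * B)),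
    mul_nonneg (sq_nonneg B) (sq_nonneg (X - 12 * B)), sq_nonneg (X * (X - 12 * B))]

theorem young2 {X P Q c : ℝ} :
    c * (P * (Q * X)) ≤ X ^ 4 / 16 + P ^ 2 + (c * Q) ^ 4 := by
  nlinarith [sq_nonneg (P - c * Q * X / 2), sq_nonneg (X ^ 2 / 4 - (c * Q) ^ 2 / 2),
    sq_nonneg ((c * Q) ^ 2)]

/-- an integral Gronwall inequality -/
theorem gron {t1 b A B : ℝ} (hb : t1 ≤ b) (hA : 0 ≤ A) (hB : 0 ≤ B) {φ : ℝ → ℝ}
    (hφ : IntegrableOn φ (Icc t1 b))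
    (hle : ∀ s ∈ Icc t1 b, φ s ≤ A * (s - t1) + B * ∫ r in t1..s, φ r) :
    φ b ≤ A * (b - t1) * Real.exp (B * (b - t1)) := by
  set χ : ℝ → ℝ := fun s => A * (b - t1) + B * ∫ r in t1..s, φ r with hχ
  have hφi : ∀ s ∈ Icc t1 b, IntervalIntegrable φ volume t1 s := by
    intro s hs
    rw [intervalIntegrable_iff_integrableOn_Ioc_of_le hs.1]
    exact hφ.mono_set (fun x hx => ⟨hx.1.le, hx.2.trans hs.2⟩)
  have hχc : ContinuousOn χ (Icc t1 b) := by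
    have h := intervalIntegral.continuousOn_primitive_interval (f := φ) (μ := volume) (a := t1)
      (b := b) (by rw [uIcc_of_le hb]; exact hφ)
    rw [uIcc_of_le hb] at h
    exact continuousOn_const.add (continuousOn_const.mul h)
  have hφχ : ∀ s ∈ Icc t1 b, φ s ≤ χ s := by
    intro s hs
    have h1 := hle s hs
    have h2 : A * (s - t1) ≤ A * (b - t1) := mul_le_mul_of_nonneg_left (by linarith [hs.2]) hA
    simp only [hχ]
    linarith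
  -- the continuous majorant
  have hχi : ∀ s ∈ Icc t1 b, IntervalIntegrable χ volume t1 s := by
    intro s hs
    refine ContinuousOn.intervalIntegrable ?_
    rw [uIcc_of_le hs.1]
    exact hχc.mono (Icc_subset_Icc_right hs.2)
  set G : ℝ → ℝ := fun s => A * (b - t1) + B * ∫ r in t1..s, χ r with hG
  have hGc : ContinuousOn G (Icc t1 b) := by
    have h := intervalIntegral.continuousOn_primitive_interval (f := χ) (μ := volume) (a := t1)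
      (b := b) (by rw [uIcc_of_le hb]; exact hχc.integrableOn_Icc)
    rw [uIcc_of_le hb] at h
    exact continuousOn_const.add (continuousOn_const.mul h)
  have hχG : ∀ s ∈ Icc t1 b, χ s ≤ G s := by
    intro s hs
    have h1 : ∫ r in t1..s, φ r ≤ ∫ r in t1..s, χ r := by
      refine intervalIntegral.integral_mono_on hs.1 (hφi s hs) (hχi s hs) ?_
      intro x hx
      exact hφχ x ⟨hx.1, hx.2.trans hs.2⟩
    have h2 := mul_le_mul_of_nonneg_left h1 hB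
    simp only [hχ, hG] at h2 ⊢
    linarith
  have hGd : ∀ s ∈ Ioo t1 b, HasDerivAt G (B * χ s) s := by
    intro s hs
    have h : HasDerivAt (fun t => ∫ r in t1..t, χ r) (χ s) s := by
      refine intervalIntegral.integral_hasDerivAt_right (hχi s (Ioo_subset_Icc_self hs)) ?_
        (hχc.continuousAt (Icc_mem_nhds hs.1 hs.2))
      exact ContinuousOn.stronglyMeasurableAtFilter isOpen_Ioo
        (hχc.mono Ioo_subset_Icc_self) s hs
    exact (h.const_mul B).const_add _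
  have hanti : AntitoneOn (fun s => G s * Real.exp (-(B * s))) (Icc t1 b) := by
    refine antitoneOn_of_deriv_nonpos (convex_Icc _ _) ?_ ?_ ?_
    · exact hGc.mul (Continuous.continuousOn (by fun_prop))
    · rw [interior_Icc]
      intro s hs
      have h2 : HasDerivAt (fun s : ℝ => Real.exp (-(B * s))) (Real.exp (-(B * s)) * (-(B * 1))) s :=
        (((hasDerivAt_id s).const_mul B).neg).exp
      exact ((hGd s hs).mul h2).differentiableAt.differentiableWithinAt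
    · rw [interior_Icc]
      intro s hs
      have h2 : HasDerivAt (fun s : ℝ => Real.exp (-(B * s))) (Real.exp (-(B * s)) * (-(B * 1))) s :=
        (((hasDerivAt_id s).const_mul B).neg).exp
      have h2' : HasDerivAt (fun s => G s * Real.exp (-(B * s)))
          (B * χ s * Real.exp (-(B * s)) + G s * (Real.exp (-(B * s)) * (-(B * 1)))) s :=
        (hGd s hs).mul h2
      rw [h2'.deriv]
      have h3 := hχG s (Ioo_subset_Icc_self hs)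
      have h4 : B * χ s * Real.exp (-(B * s)) + G s * (Real.exp (-(B * s)) * (-(B * 1)))
          = -(B * (G s - χ s) * Real.exp (-(B * s))) := by ring
      rw [h4]
      have h5 : 0 ≤ B * (G s - χ s) * Real.exp (-(B * s)) :=
        mul_nonneg (mul_nonneg hB (by linarith)) (Real.exp_pos _).le
      linarith
  have h1 := hanti (left_mem_Icc.2 hb) (right_mem_Icc.2 hb) hb
  have hGt : G t1 = A * (b - t1) := by simp [hG]
  simp only [hGt] at h1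
  have h2 : G b ≤ A * (b - t1) * Real.exp (B * (b - t1)) := by
    have h3 : G b = G b * Real.exp (-(B * b)) * Real.exp (B * b) := by
      rw [mul_assoc, ← Real.exp_add]; simp
    have h4 : A * (b - t1) * Real.exp (B * (b - t1))
        = A * (b - t1) * Real.exp (-(B * t1)) * Real.exp (B * b) := by
      rw [mul_assoc (A * (b - t1)), ← Real.exp_add]; ring_nf
    rw [h3, h4]
    exact mul_le_mul_of_nonneg_right h1 (Real.exp_pos _).le
  exact ((hφχ b (right_mem_Icc.2 hb)).trans (hχG b (right_mem_Icc.2 hb))).trans h2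

variable {H K : Type} [NormedAddCommGroup H] [InnerProductSpace ℝ H] [CompleteSpace H]
  [NormedAddCommGroup K] [InnerProductSpace ℝ K] [CompleteSpace K]
variable {W : Submodule ℝ (H × K)} {m : H → K} {C c ν T : ℝ} {F : ℝ → K} {x0 : H} {u : ℝ → H}
  {z : ℝ → K}

/-- the trilinear terms -/
theorem pwt (Fr : Frame W m C) (Un : Univ W m c) (hν : 0 < ν) {p q : H × K} (hp : p ∈ W)
    (hq : q ∈ W) :
    - ⟪m p.1, q.2⟫_ℝ ≤ ν * ‖p.2 - q.2‖ ^ 2 / 8 + ν * ‖q.2‖ ^ 2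
        + 433 * (c ^ 4 / ν ^ 3 * ‖q.2‖ ^ 4 * ‖p.1 - q.1‖ ^ 2) := by
  have hc := Un.c0
  have he : p - q ∈ W := W.sub_mem hp hq
  have h1 := Un.quart _ he
  have h2 := Un.tri _ hq _ he
  have h3 := Fr.anti _ hp _ he
  simp only [Prod.fst_sub, Prod.snd_sub, sub_sub_cancel] at h1 h2 h3
  set w := ‖p.2 - q.2‖ with hw
  set e := ‖p.1 - q.1‖ with hee
  have hw0 : 0 ≤ w := norm_nonneg _
  have he0 : 0 ≤ e := norm_nonneg _
  set X := Real.sqrt w with hX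
  set E := Real.sqrt e with hE
  have hX0 : 0 ≤ X := Real.sqrt_nonneg _
  have hE0 : 0 ≤ E := Real.sqrt_nonneg _
  have hX2 : X ^ 2 = w := Real.sq_sqrt hw0
  have hE2 : E ^ 2 = e := Real.sq_sqrt he0
  set r := Real.sqrt (Real.sqrt ν) with hr
  have hr0 : 0 < r := Real.sqrt_pos.2 (Real.sqrt_pos.2 hν)
  have hr4 : r ^ 4 = ν := by
    have : r ^ 4 = (r ^ 2) ^ 2 := by ring
    rw [this, hr, Real.sq_sqrt (Real.sqrt_nonneg _), Real.sq_sqrt hν.le]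
  set g := ‖q.2‖ with hg
  have hg0 : 0 ≤ g := norm_nonneg _
  -- the trilinear term
  have h4 : -⟪m p.1, q.2⟫_ℝ ≤ c * (E * X ^ 3) * g + c * (g ^ 2 * (E * X)) := by
    have e1 : ⟪m p.1, q.2⟫_ℝ = ⟪m (p.1 - q.1), q.2⟫_ℝ - ⟪m q.1, p.2 - q.2⟫_ℝ := by
      rw [inner_sub_left] at h3
      linarith
    rw [e1]
    have h5 := abs_real_inner_le_norm (m (p.1 - q.1)) q.2
    have h6 : ‖m (p.1 - q.1)‖ * ‖q.2‖ ≤ c * (E * X ^ 3) * g := by
      gcongr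
    have h7 := (abs_le.1 (h5.trans h6)).1
    have h8 := (abs_le.1 h2).2
    linarith
  have h5 : c * (E * X ^ 3) * g ≤ ν * w ^ 2 / 16 + 432 * (c ^ 4 / ν ^ 3 * g ^ 4 * e ^ 2) := by
    have k := young1 (X := r * X) (Q := E * g / r ^ 3) (c := c) (by positivity) (by positivity)
    have e1 : c * (E * g / r ^ 3 * (r * X) ^ 3) = c * (E * X ^ 3) * g := by
      field_simp
    have e2 : (r * X) ^ 4 = ν * w ^ 2 := by rw [← hr4, ← hX2]; ring
    have e3 : (c * (E * g / r ^ 3)) ^ 4 = c ^ 4 / ν ^ 3 * g ^ 4 * e ^ 2 := by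
      rw [← hr4, ← hE2]; field_simp
    rw [e1, e2, e3] at k
    exact k
  have h6 : c * (g ^ 2 * (E * X)) ≤ ν * w ^ 2 / 16 + ν * g ^ 2 + c ^ 4 / ν ^ 3 * g ^ 4 * e ^ 2 := by
    have k := young2 (X := r * X) (Q := E * g / r ^ 3) (P := r ^ 2 * g) (c := c)
    have e1 : c * (r ^ 2 * g * (E * g / r ^ 3 * (r * X))) = c * (g ^ 2 * (E * X)) := by
      field_simp
    have e2 : (r * X) ^ 4 = ν * w ^ 2 := by rw [← hr4, ← hX2]; ring
    have e3 : (c * (E * g / r ^ 3)) ^ 4 = c ^ 4 / ν ^ 3 * g ^ 4 * e ^ 2 := by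
      rw [← hr4, ← hE2]; field_simp
    have e4 : (r ^ 2 * g) ^ 2 = ν * g ^ 2 := by rw [← hr4]; ring
    rw [e1, e2, e3, e4] at k
    exact k
  linarith

theorem pw (Fr : Frame W m C) (Un : Univ W m c) (hν : 0 < ν) {p q : H × K} (hp : p ∈ W)
    (hq : q ∈ W) {f : K} {Φ : ℝ} (hf : ‖f‖ ≤ Φ) (U : H) :
    ⟪f, p.2 - q.2⟫_ℝ + ν * ⟪p.2, q.2⟫_ℝ - ⟪m p.1, q.2⟫_ℝ
      ≤ 1 / 2 * ν * ‖p.2‖ ^ 2 + (27 / 8 * ν * ‖q.2‖ ^ 2 + 866 * c ^ 4 / ν ^ 3 * ‖q.2‖ ^ 4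
        * (‖p.1 - U‖ ^ 2 + ‖q.1 - U‖ ^ 2) + 4 * Φ ^ 2 / ν) := by
  have h0 := pwt Fr Un hν hp hq
  set w := ‖p.2 - q.2‖ with hw
  set e := ‖p.1 - q.1‖ with hee
  have hw0 : 0 ≤ w := norm_nonneg _
  have he0 : 0 ≤ e := norm_nonneg _
  set g := ‖q.2‖ with hg
  have hg0 : 0 ≤ g := norm_nonneg _
  -- the force
  have hΦ : 0 ≤ Φ := (norm_nonneg _).trans hf
  have h7 : ⟪f, p.2 - q.2⟫_ℝ ≤ ν * w ^ 2 / 16 + 4 * Φ ^ 2 / ν := by
    have k1 : ⟪f, p.2 - q.2⟫_ℝ ≤ Φ * w := (real_inner_le_norm _ _).trans (by gcongr)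
    have k2 : ν * w ^ 2 / 16 + 4 * Φ ^ 2 / ν - Φ * w = (ν * w / 4 - 2 * Φ) ^ 2 / ν := by
      field_simp
      ring
    have k3 : 0 ≤ (ν * w / 4 - 2 * Φ) ^ 2 / ν := by positivity
    linarith
  -- the viscous term
  have h8 : ν * ⟪p.2, q.2⟫_ℝ ≤ ν * (‖p.2‖ ^ 2 / 8 + 2 * g ^ 2) := by
    refine mul_le_mul_of_nonneg_left ?_ hν.le
    have k1 : ⟪p.2, q.2⟫_ℝ ≤ ‖p.2‖ * g := real_inner_le_norm _ _
    nlinarith [sq_nonneg (‖p.2‖ / 2 - 2 * g)]
  have h9 : w ^ 2 ≤ 2 * ‖p.2‖ ^ 2 + 2 * g ^ 2 := by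
    have k1 : w ≤ ‖p.2‖ + g := norm_sub_le _ _
    nlinarith [sq_nonneg (‖p.2‖ - g), norm_nonneg p.2]
  have h10 : e ^ 2 ≤ 2 * (‖p.1 - U‖ ^ 2 + ‖q.1 - U‖ ^ 2) := by
    have k1 : e ≤ ‖p.1 - U‖ + ‖q.1 - U‖ := by
      have : p.1 - q.1 = (p.1 - U) - (q.1 - U) := by abel
      rw [hee, this]
      exact norm_sub_le _ _
    nlinarith [sq_nonneg (‖p.1 - U‖ - ‖q.1 - U‖), norm_nonneg (p.1 - U), norm_nonneg (q.1 - U)]
  have h11 : c ^ 4 / ν ^ 3 * g ^ 4 * e ^ 2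
      ≤ c ^ 4 / ν ^ 3 * g ^ 4 * (2 * (‖p.1 - U‖ ^ 2 + ‖q.1 - U‖ ^ 2)) :=
    mul_le_mul_of_nonneg_left h10 (by positivity)
  have h12 : ν * w ^ 2 ≤ ν * (2 * ‖p.2‖ ^ 2 + 2 * g ^ 2) :=
    mul_le_mul_of_nonneg_left h9 hν.le
  have e5 : 866 * c ^ 4 / ν ^ 3 * g ^ 4 * (‖p.1 - U‖ ^ 2 + ‖q.1 - U‖ ^ 2)
      = 433 * (c ^ 4 / ν ^ 3 * g ^ 4 * (2 * (‖p.1 - U‖ ^ 2 + ‖q.1 - U‖ ^ 2))) := by ring
  rw [e5]
  linarith

theorem pw2 (Fr : Frame W m C) (Un : Univ W m c) (hν : 0 < ν) {p q : H × K} (hp : p ∈ W)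
    (hq : q ∈ W) {f : K} {Φ : ℝ} (hf : ‖f‖ ≤ Φ) :
    ⟪f, p.2 - q.2⟫_ℝ + ν * ⟪p.2, q.2⟫_ℝ - ⟪m p.1, q.2⟫_ℝ
      ≤ ν * ‖p.2‖ ^ 2 + (2 * ν * ‖q.2‖ ^ 2 + Φ ^ 2 / ν
        + 433 * (c ^ 4 / ν ^ 3 * ‖q.2‖ ^ 4 * ‖p.1 - q.1‖ ^ 2)) := by
  have h0 := pwt Fr Un hν hp hq
  have e1 : ⟪p.2, q.2⟫_ℝ = ‖p.2‖ ^ 2 - ‖p.2 - q.2‖ ^ 2 - ⟪q.2, p.2 - q.2⟫_ℝ := by
    rw [norm_sub_sq_real, inner_sub_right, real_inner_self_eq_norm_sq, real_inner_comm p.2 q.2]
    ring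
  rw [e1]
  set w := ‖p.2 - q.2‖ with hw
  set e := ‖p.1 - q.1‖ with hee
  have hw0 : 0 ≤ w := norm_nonneg _
  set g := ‖q.2‖ with hg
  have hg0 : 0 ≤ g := norm_nonneg _
  have hΦ : 0 ≤ Φ := (norm_nonneg _).trans hf
  have h7 : ⟪f, p.2 - q.2⟫_ℝ ≤ ν * w ^ 2 / 4 + Φ ^ 2 / ν := by
    have k1 : ⟪f, p.2 - q.2⟫_ℝ ≤ Φ * w := (real_inner_le_norm _ _).trans (by gcongr)
    have k2 : ν * w ^ 2 / 4 + Φ ^ 2 / ν - Φ * w = (ν * w / 2 - Φ) ^ 2 / ν := by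
      field_simp
      ring
    have k3 : 0 ≤ (ν * w / 2 - Φ) ^ 2 / ν := by positivity
    linarith
  have h8 : ν * (-⟪q.2, p.2 - q.2⟫_ℝ) ≤ ν * (w ^ 2 / 4 + g ^ 2) := by
    refine mul_le_mul_of_nonneg_left ?_ hν.le
    have k1 := (abs_le.1 (abs_real_inner_le_norm q.2 (p.2 - q.2))).1
    rw [← hw, ← hg] at k1
    nlinarith [sq_nonneg (w / 2 - g)]
  have h9 : 0 ≤ ν * w ^ 2 := by positivity
  linarith

theorem coef (_hν : 0 < ν) (hF : ContinuousOn F (Icc 0 T)) : Coef ν T (fun _ => ν) F where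
  n2 := memLp_const _
  low := Eventually.of_forall fun _ => le_rfl
  F2 := mem_cont hF

/-- the identity -/
theorem ident (Fr : Frame W m C) (hν : 0 < ν) (hF : ContinuousOn F (Icc 0 T))
    (L : LH W m T (fun _ => ν) F x0 u z) {w : H} {ζ : K} (hp : (w, ζ) ∈ W) {a b : ℝ}
    (ha : a ∈ Icc 0 T) (hb : b ∈ Icc 0 T) (hab : a ≤ b) :
    IntervalIntegrable (fun s => ‖z s‖ ^ 2) volume a b ∧
    IntervalIntegrable (fun s => ⟪F s, z s - ζ⟫_ℝ + ν * ⟪z s, ζ⟫_ℝ - ⟪m (u s), ζ⟫_ℝ)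
      volume a b ∧
    (dft (fun _ => ν) F x0 u z b - dft (fun _ => ν) F x0 u z a) + ν * (∫ s in a..b, ‖z s‖ ^ 2)
      = ((‖u a‖ ^ 2 - ‖u b‖ ^ 2) / 2 + ⟪u b - u a, w⟫_ℝ)
      + ∫ s in a..b, (⟪F s, z s - ζ⟫_ℝ + ν * ⟪z s, ζ⟫_ℝ - ⟪m (u s), ζ⟫_ℝ) := by
  have Co : Coef ν T (fun _ => ν) F := coef hν hF
  have jz : Integrable (fun s => ‖z s‖ ^ 2) (volume.restrict (Ioc 0 T)) :=
    (memLp_two_iff_integrable_sq_norm L.z2.aestronglyMeasurable).mp L.z2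
  have jF : Integrable (fun s => ⟪F s, z s⟫_ℝ) (volume.restrict (Ioc 0 T)) := L.Fzi Co
  have jw : Integrable (fun s => ⟪F s - ν • z s + m (u s), ζ⟫_ℝ) (volume.restrict (Ioc 0 T)) :=
    (L.Gi Fr Co).inner_const ζ
  have jFζ : Integrable (fun s => ⟪F s, ζ⟫_ℝ) (volume.restrict (Ioc 0 T)) :=
    (Co.F2.integrable (by norm_num)).inner_const ζ
  have jzζ : Integrable (fun s => ⟪z s, ζ⟫_ℝ) (volume.restrict (Ioc 0 T)) :=
    (L.z2.integrable (by norm_num)).inner_const ζ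
  have jmζ : Integrable (fun s => ⟪m (u s), ζ⟫_ℝ) (volume.restrict (Ioc 0 T)) :=
    (L.mi Fr).inner_const ζ
  have jG : Integrable (fun s => ⟪F s, z s - ζ⟫_ℝ + ν * ⟪z s, ζ⟫_ℝ - ⟪m (u s), ζ⟫_ℝ)
      (volume.restrict (Ioc 0 T)) := by
    refine (((jF.sub jFζ).add (jzζ.const_mul ν)).sub jmζ).congr (Eventually.of_forall fun s => ?_)
    simp only [Pi.add_apply, Pi.sub_apply, inner_sub_right]
  have h0T : 0 ≤ T := ha.1.trans ha.2
  have ii : ∀ {f : ℝ → ℝ}, Integrable f (volume.restrict (Ioc 0 T)) → ∀ {x y : ℝ}, 0 ≤ x →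
      x ≤ y → y ≤ T → IntervalIntegrable f volume x y := fun hf _ _ h1 h2 h3 =>
    ii_of_int hf h1 h2 h3
  refine ⟨ii jz ha.1 hab hb.2, ii jG ha.1 hab hb.2, ?_⟩
  have E2 : ⟪u b - u a, w⟫_ℝ = ∫ s in a..b, ⟪F s - ν • z s + m (u s), ζ⟫_ℝ := by
    have k1 := L.weak _ hp a ha
    have k2 := L.weak _ hp b hb
    have k3 := intervalIntegral.integral_add_adjacent_intervals (ii jw le_rfl ha.1 ha.2)
      (ii jw ha.1 hab hb.2)
    simp only at k1 k2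
    rw [← k3] at k2
    have e : u b - u a = (u b - x0) - (u a - x0) := by abel
    rw [e, inner_sub_left, k2, k1]
    ring
  have E1 : (dft (fun _ => ν) F x0 u z b - dft (fun _ => ν) F x0 u z a)
      + ν * (∫ s in a..b, ‖z s‖ ^ 2) = (‖u a‖ ^ 2 - ‖u b‖ ^ 2) / 2
      + ∫ s in a..b, ⟪F s, z s⟫_ℝ := by
    have k3 := intervalIntegral.integral_add_adjacent_intervals (ii jz le_rfl ha.1 ha.2)
      (ii jz ha.1 hab hb.2)
    have k4 := intervalIntegral.integral_add_adjacent_intervals (ii jF le_rfl ha.1 ha.2)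
      (ii jF ha.1 hab hb.2)
    simp only [dft, intervalIntegral.integral_const_mul]
    rw [← k3, ← k4]
    ring
  have k : ∫ s in a..b, ⟪F s, z s⟫_ℝ = (∫ s in a..b, ⟪F s - ν • z s + m (u s), ζ⟫_ℝ)
      + ∫ s in a..b, (⟪F s, z s - ζ⟫_ℝ + ν * ⟪z s, ζ⟫_ℝ - ⟪m (u s), ζ⟫_ℝ) := by
    rw [← intervalIntegral.integral_add (ii jw ha.1 hab hb.2) (ii jG ha.1 hab hb.2)]
    refine intervalIntegral.integral_congr fun s _ => ?_
    simp only [inner_add_left, inner_sub_left, inner_sub_right, inner_smul_left]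
    simp
  rw [E1, E2, k]
  ring

theorem ui (hν : 0 < ν) (hF : ContinuousOn F (Icc 0 T))
    (L : LH W m T (fun _ => ν) F x0 u z) (U : H) :
    Integrable (fun s => ‖u s - U‖ ^ 2) (volume.restrict (Ioc 0 T)) := by
  obtain ⟨M, hM⟩ := L.bdd hν.le (coef hν hF)
  refine ((MemLp.of_bound (p := 1) ((L.meas.sub aestronglyMeasurable_const).norm.pow 2)
    ((M + ‖U‖) ^ 2) ?_).integrable le_rfl)
  filter_upwards [ae_restrict_mem measurableSet_Ioc] with s hs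
  have h1 : ‖u s - U‖ ≤ M + ‖U‖ :=
    (norm_sub_le _ _).trans (by linarith [hM s (Ioc_subset_Icc_self hs)])
  show ‖‖u s - U‖ ^ 2‖ ≤ _
  rw [Real.norm_eq_abs, abs_of_nonneg (by positivity)]
  exact pow_le_pow_left₀ (norm_nonneg _) h1 2

theorem mono_ae {a b : ℝ} {f g : ℝ → ℝ} (hab : a ≤ b) (ha : 0 ≤ a) (hb : b ≤ T)
    (hf : IntervalIntegrable f volume a b) (hg : IntervalIntegrable g volume a b)
    (h : ∀ᵐ s ∂(volume.restrict (Ioc 0 T)), f s ≤ g s) :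
    ∫ s in a..b, f s ≤ ∫ s in a..b, g s := by
  rw [intervalIntegral.integral_of_le hab, intervalIntegral.integral_of_le hab]
  rw [intervalIntegrable_iff_integrableOn_Ioc_of_le hab] at hf hg
  exact integral_mono_ae hf hg
    (ae_mono (Measure.restrict_mono (Ioc_subset_Ioc ha hb) le_rfl) h)

theorem proof_tp : S_tp := by
  intro c hc
  refine ⟨4 + 866 * c ^ 4, by positivity, ?_⟩
  intro H K _ _ _ _ _ _ W m C ν T F x0 u z Φ U Fr Un hν hT hF L hΦ hFΦ t1 ht1 hmem a ha b hb hab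
  obtain ⟨iz, iG, E3⟩ := ident Fr hν hF L hmem ha hb hab
  set v := u t1 with hv
  set ζ := z t1 with hζ
  set g := ‖ζ‖ with hg
  have hg0 : 0 ≤ g := norm_nonneg _
  set D : ℝ → ℝ := fun s => ‖u s - U‖ with hD
  have hD0 : ∀ s, 0 ≤ D s := fun s => norm_nonneg _
  have iD : IntervalIntegrable (fun s => D s ^ 2) volume a b :=
    ii_of_int (ui hν hF L U) ha.1 hab hb.2
  set r : ℝ := ν ^ (1 / 4 : ℝ) with hr
  have hr0 : 0 < r := Real.rpow_pos_of_pos hν _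
  let R : ℝ → ℝ := fun s => 27 / 8 * ν * g ^ 2 + 866 * c ^ 4 / ν ^ 3 * g ^ 4
        * (D s ^ 2 + D t1 ^ 2) + 4 * Φ ^ 2 / ν
  have iR : IntervalIntegrable R volume a b := by
    exact (intervalIntegrable_const.add ((iD.add intervalIntegrable_const).const_mul _)).add
      intervalIntegrable_const
  -- the bracket
  have E4 : (‖u a‖ ^ 2 - ‖u b‖ ^ 2) / 2 + ⟪u b - u a, v⟫_ℝ
      ≤ (D a + D b) * (D a + D b + D t1) := by
    have k1 : (‖u a‖ ^ 2 - ‖u b‖ ^ 2) / 2 + ⟪u b - u a, v⟫_ℝ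
        = ⟪u a - u b, (2 : ℝ)⁻¹ • ((u a - U) + (u b - U)) - (v - U)⟫_ℝ := by
      simp only [inner_add_right, inner_sub_right, inner_sub_left, inner_smul_right,
        ← real_inner_self_eq_norm_sq]
      rw [real_inner_comm (u a) (u b)]
      ring
    rw [k1]
    have k2 : ‖u a - u b‖ ≤ D a + D b := by
      have : u a - u b = (u a - U) - (u b - U) := by abel
      rw [this]
      exact norm_sub_le _ _
    have k3 : ‖(2 : ℝ)⁻¹ • ((u a - U) + (u b - U)) - (v - U)‖ ≤ D a + D b + D t1 := by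
      refine (norm_sub_le _ _).trans ?_
      rw [norm_smul, Real.norm_eq_abs, abs_of_pos (by norm_num : (0 : ℝ) < 2⁻¹)]
      have k4 := norm_add_le (u a - U) (u b - U)
      have k5 : ‖u a - U‖ = D a := rfl
      have k6 : ‖u b - U‖ = D b := rfl
      have k7 : ‖v - U‖ = D t1 := rfl
      have k8 := norm_nonneg ((u a - U) + (u b - U))
      have k9 := norm_nonneg (u a - U)
      have k10 := norm_nonneg (u b - U)
      rw [k5, k6] at k4
      rw [k5] at k9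
      rw [k6] at k10
      rw [k7]
      linarith
    refine (real_inner_le_norm _ _).trans ?_
    have := hD0 a
    have := hD0 b
    gcongr
  -- the pointwise bound
  have E5 : ∫ s in a..b, (⟪F s, z s - ζ⟫_ℝ + ν * ⟪z s, ζ⟫_ℝ - ⟪m (u s), ζ⟫_ℝ)
      ≤ ∫ s in a..b, (1 / 2 * ν * ‖z s‖ ^ 2 + R s) := by
    refine mono_ae hab ha.1 hb.2 iG ((iz.const_mul _).add iR) ?_
    filter_upwards [L.mem, ae_restrict_mem measurableSet_Ioc] with s hs hsT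
    exact pw Fr Un hν hs hmem (hFΦ s (Ioc_subset_Icc_self hsT)) U
  rw [intervalIntegral.integral_add (iz.const_mul _) iR,
    intervalIntegral.integral_const_mul] at E5
  set I := ∫ s in a..b, ‖z s‖ ^ 2 with hI
  set Δ := dft (fun _ => ν) F x0 u z b - dft (fun _ => ν) F x0 u z a with hΔ
  have E6 : Δ + 1 / 2 * (ν * I) ≤ (D a + D b) * (D a + D b + D t1) + ∫ s in a..b, R s := by
    linarith
  -- powers of the viscosity
  have hr3 : ν ^ (3 / 2 : ℝ) = r ^ 6 := by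
    rw [hr, ← Real.rpow_natCast, ← Real.rpow_mul hν.le]; norm_num
  have hr5 : ν ^ (5 / 4 : ℝ) = r ^ 5 := by
    rw [hr, ← Real.rpow_natCast, ← Real.rpow_mul hν.le]; norm_num
  have hr7 : ν ^ (7 / 2 : ℝ) = r ^ 14 := by
    rw [hr, ← Real.rpow_natCast, ← Real.rpow_mul hν.le]; norm_num
  have hr10 : ν ^ (5 / 2 : ℝ) = r ^ 10 := by
    rw [hr, ← Real.rpow_natCast, ← Real.rpow_mul hν.le]; norm_num
  have hr4 : ν = r ^ 4 := by
    rw [hr, ← Real.rpow_natCast, ← Real.rpow_mul hν.le]; norm_num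
  rw [hr3, hr5, hr7, hr10]
  have iJ : IntervalIntegrable (fun s => g ^ 2 / r ^ 6 + Φ ^ 2 / r ^ 14
      + ((g ^ 2 / r ^ 6) ^ 2 + Φ ^ 2 / r ^ 14) * ((D s / r ^ 5) ^ 2 + (D t1 / r ^ 5) ^ 2))
      volume a b := by
    have h1 : IntervalIntegrable (fun s => (D s / r ^ 5) ^ 2) volume a b := by
      refine (iD.const_mul (1 / (r ^ 5) ^ 2)).congr ?_
      intro s _
      show 1 / (r ^ 5) ^ 2 * D s ^ 2 = (D s / r ^ 5) ^ 2
      rw [div_pow]; ring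
    exact intervalIntegrable_const.add ((h1.add intervalIntegrable_const).const_mul _)
  have E7 : (∫ s in a..b, R s) / r ^ 10 ≤ (4 + 866 * c ^ 4) *
      ∫ s in a..b, (g ^ 2 / r ^ 6 + Φ ^ 2 / r ^ 14
      + ((g ^ 2 / r ^ 6) ^ 2 + Φ ^ 2 / r ^ 14) * ((D s / r ^ 5) ^ 2 + (D t1 / r ^ 5) ^ 2)) := by
    have e1 : (∫ s in a..b, R s) / r ^ 10 = ∫ s in a..b, (1 / r ^ 10) * R s := by
      rw [intervalIntegral.integral_const_mul]; ring
    rw [e1, ← intervalIntegral.integral_const_mul]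
    refine intervalIntegral.integral_mono_on hab (iR.const_mul _)
      (iJ.const_mul _) fun s _ => ?_
    have e2 : (1 / r ^ 10) * R s = 27 / 8 * (g ^ 2 / r ^ 6) + 4 * (Φ ^ 2 / r ^ 14)
        + 866 * c ^ 4 * ((g ^ 2 / r ^ 6) ^ 2 * ((D s / r ^ 5) ^ 2 + (D t1 / r ^ 5) ^ 2)) := by
      simp only [R]
      rw [hr4]
      field_simp
      ring
    rw [e2]
    set Y := g ^ 2 / r ^ 6 with hY
    set P := Φ ^ 2 / r ^ 14 with hP
    set M := (D s / r ^ 5) ^ 2 + (D t1 / r ^ 5) ^ 2 with hM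
    have hY0 : 0 ≤ Y := by positivity
    have hP0 : 0 ≤ P := by positivity
    have hM0 : 0 ≤ M := by positivity
    have m1 : 0 ≤ c ^ 4 * Y := by positivity
    have m2 : 0 ≤ c ^ 4 * P := by positivity
    have m3 : 0 ≤ Y ^ 2 * M := by positivity
    have m4 : 0 ≤ P * M := by positivity
    have m5 : 0 ≤ c ^ 4 * (Y ^ 2 * M) := by positivity
    have m6 : 0 ≤ c ^ 4 * (P * M) := by positivity
    have e3 : (4 + 866 * c ^ 4) * (Y + P + (Y ^ 2 + P) * M) = 4 * Y + 4 * P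
        + 4 * (Y ^ 2 * M) + 4 * (P * M) + 866 * (c ^ 4 * Y) + 866 * (c ^ 4 * P)
        + 866 * (c ^ 4 * (Y ^ 2 * M)) + 866 * (c ^ 4 * (P * M)) := by ring
    rw [e3]
    linarith
  have E8 : ∫ s in a..b, ‖z s‖ ^ 2 / r ^ 6 = ν * I / r ^ 10 := by
    rw [intervalIntegral.integral_div, ← hI, hr4]
    field_simp
  rw [E8]
  have E9 : Δ / r ^ 10 + 1 / 2 * (ν * I / r ^ 10) ≤ (D a / r ^ 5 + D b / r ^ 5)
      * (D a / r ^ 5 + D b / r ^ 5 + D t1 / r ^ 5) + (∫ s in a..b, R s) / r ^ 10 := by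
    have e1 : (D a / r ^ 5 + D b / r ^ 5)
      * (D a / r ^ 5 + D b / r ^ 5 + D t1 / r ^ 5) + (∫ s in a..b, R s) / r ^ 10
      = ((D a + D b) * (D a + D b + D t1) + ∫ s in a..b, R s) / r ^ 10 := by
      field_simp
    have e2 : Δ / r ^ 10 + 1 / 2 * (ν * I / r ^ 10) = (Δ + 1 / 2 * (ν * I)) / r ^ 10 := by ring
    rw [e1, e2]
    gcongr
  have hB0 : 0 ≤ (D a / r ^ 5 + D b / r ^ 5) * (D a / r ^ 5 + D b / r ^ 5 + D t1 / r ^ 5) := by
    have := hD0 a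
    have := hD0 b
    have := hD0 t1
    positivity
  have hB1 : 0 ≤ c ^ 4 * ((D a / r ^ 5 + D b / r ^ 5)
      * (D a / r ^ 5 + D b / r ^ 5 + D t1 / r ^ 5)) := by positivity
  show Δ / r ^ 10 + 1 / 2 * (ν * I / r ^ 10) ≤ (4 + 866 * c ^ 4) *
      (∫ s in a..b, (g ^ 2 / r ^ 6 + Φ ^ 2 / r ^ 14
      + ((g ^ 2 / r ^ 6) ^ 2 + Φ ^ 2 / r ^ 14) * ((D s / r ^ 5) ^ 2 + (D t1 / r ^ 5) ^ 2)))
      + (4 + 866 * c ^ 4) * ((D a / r ^ 5 + D b / r ^ 5)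
      * (D a / r ^ 5 + D b / r ^ 5 + D t1 / r ^ 5))
  nlinarith

theorem proof_grw : S_grw := by
  intro c hc
  refine ⟨4 + 866 * c ^ 4, by positivity, ?_⟩
  intro H K _ _ _ _ _ _ W m C ν T F x0 u z Φ Fr Un hν hT hF L hΦ hFΦ t1 ht1 hmem hD b hb
  set g := ‖z t1‖ with hg
  have hg0 : 0 ≤ g := norm_nonneg _
  have hui := ui hν hF L (u t1)
  set φ : ℝ → ℝ := fun s => ‖u s - u t1‖ ^ 2 with hφ
  have key : ∀ s ∈ Icc t1 b, φ s ≤ (2 * (2 * ν * g ^ 2 + Φ ^ 2 / ν)) * (s - t1)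
      + (866 * (c ^ 4 / ν ^ 3 * g ^ 4)) * ∫ r in t1..s, φ r := by
    intro s hs
    have hsT : s ∈ Icc 0 T := ⟨ht1.1.trans hs.1, hs.2.trans hb.2⟩
    obtain ⟨iz, iG, E3⟩ := ident Fr hν hF L hmem ht1 hsT hs.1
    have iφ : IntervalIntegrable φ volume t1 s := ii_of_int hui ht1.1 hs.1 hsT.2
    have iR : IntervalIntegrable (fun x => (2 * ν * g ^ 2 + Φ ^ 2 / ν)
        + 433 * (c ^ 4 / ν ^ 3 * g ^ 4) * φ x) volume t1 s :=
      intervalIntegrable_const.add (iφ.const_mul _)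
    have E5 : ∫ x in t1..s, (⟪F x, z x - z t1⟫_ℝ + ν * ⟪z x, z t1⟫_ℝ - ⟪m (u x), z t1⟫_ℝ)
        ≤ ∫ x in t1..s, (ν * ‖z x‖ ^ 2 + ((2 * ν * g ^ 2 + Φ ^ 2 / ν)
        + 433 * (c ^ 4 / ν ^ 3 * g ^ 4) * φ x)) := by
      refine mono_ae hs.1 ht1.1 hsT.2 iG ((iz.const_mul _).add iR) ?_
      filter_upwards [L.mem, ae_restrict_mem measurableSet_Ioc] with x hx hxT
      have h := pw2 Fr Un hν hx hmem (hFΦ x (Ioc_subset_Icc_self hxT))
      simp only at h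
      refine h.trans (le_of_eq ?_)
      simp only [hφ, hg]
      ring
    rw [intervalIntegral.integral_add (iz.const_mul _) iR,
      intervalIntegral.integral_const_mul,
      intervalIntegral.integral_add intervalIntegrable_const (iφ.const_mul _),
      intervalIntegral.integral_const_mul, intervalIntegral.integral_const] at E5
    have h1 := hD s ⟨hs.1, hsT.2⟩
    have h2 : (‖u t1‖ ^ 2 - ‖u s‖ ^ 2) / 2 + ⟪u s - u t1, u t1⟫_ℝ = - φ s / 2 := by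
      simp only [hφ]
      rw [norm_sub_sq_real, inner_sub_left, real_inner_self_eq_norm_sq]
      ring
    rw [h2] at E3
    simp only [smul_eq_mul] at E5
    linarith
  have hint : IntegrableOn φ (Icc t1 b) := by
    rw [integrableOn_Icc_iff_integrableOn_Ioc]
    exact IntegrableOn.mono_set (s := Ioc t1 b) (t := Ioc 0 T) hui
      (Ioc_subset_Ioc ht1.1 hb.2)
  have hmain := gron hb.1 (A := 2 * (2 * ν * g ^ 2 + Φ ^ 2 / ν))
    (B := 866 * (c ^ 4 / ν ^ 3 * g ^ 4)) (by positivity) (by positivity) hint key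
  -- powers of the viscosity
  set r : ℝ := ν ^ (1 / 4 : ℝ) with hr
  have hr0 : 0 < r := Real.rpow_pos_of_pos hν _
  have hr3 : ν ^ (3 / 2 : ℝ) = r ^ 6 := by
    rw [hr, ← Real.rpow_natCast, ← Real.rpow_mul hν.le]; norm_num
  have hr7 : ν ^ (7 / 2 : ℝ) = r ^ 14 := by
    rw [hr, ← Real.rpow_natCast, ← Real.rpow_mul hν.le]; norm_num
  have hr10 : ν ^ (5 / 2 : ℝ) = r ^ 10 := by
    rw [hr, ← Real.rpow_natCast, ← Real.rpow_mul hν.le]; norm_num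
  have hr4 : ν = r ^ 4 := by
    rw [hr, ← Real.rpow_natCast, ← Real.rpow_mul hν.le]; norm_num
  rw [hr3, hr7, hr10]
  have hbt : 0 ≤ b - t1 := by linarith [hb.1]
  rw [div_le_iff₀ (by positivity)]
  refine hmain.trans ?_
  have e1 : 2 * (2 * ν * g ^ 2 + Φ ^ 2 / ν) * (b - t1)
      ≤ (4 + 866 * c ^ 4) * ((b - t1) * (g ^ 2 / r ^ 6 + Φ ^ 2 / r ^ 14)) * r ^ 10 := by
    have e2 : (4 + 866 * c ^ 4) * ((b - t1) * (g ^ 2 / r ^ 6 + Φ ^ 2 / r ^ 14)) * r ^ 10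
        = (4 + 866 * c ^ 4) * ((b - t1) * (r ^ 4 * g ^ 2 + Φ ^ 2 / r ^ 4)) := by
      field_simp
    rw [e2, hr4]
    have p1 : 0 ≤ (b - t1) * (r ^ 4 * g ^ 2) := by positivity
    have p2 : 0 ≤ (b - t1) * (Φ ^ 2 / r ^ 4) := by positivity
    have p3 : 0 ≤ c ^ 4 * ((b - t1) * (r ^ 4 * g ^ 2)) := by positivity
    have p4 : 0 ≤ c ^ 4 * ((b - t1) * (Φ ^ 2 / r ^ 4)) := by positivity
    nlinarith
  have e3 : 866 * (c ^ 4 / ν ^ 3 * g ^ 4) * (b - t1)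
      ≤ (4 + 866 * c ^ 4) * ((b - t1) * (g ^ 2 / r ^ 6) ^ 2) := by
    have e4 : 866 * (c ^ 4 / ν ^ 3 * g ^ 4) * (b - t1)
        = 866 * c ^ 4 * ((b - t1) * (g ^ 2 / r ^ 6) ^ 2) := by
      rw [hr4]
      field_simp
    rw [e4]
    have p1 : 0 ≤ (b - t1) * (g ^ 2 / r ^ 6) ^ 2 := by positivity
    nlinarith
  have e5 := Real.exp_le_exp.2 e3
  have p0 : 0 ≤ 2 * (2 * ν * g ^ 2 + Φ ^ 2 / ν) * (b - t1) := by positivity
  calc 2 * (2 * ν * g ^ 2 + Φ ^ 2 / ν) * (b - t1)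
        * Real.exp (866 * (c ^ 4 / ν ^ 3 * g ^ 4) * (b - t1))
      ≤ ((4 + 866 * c ^ 4) * ((b - t1) * (g ^ 2 / r ^ 6 + Φ ^ 2 / r ^ 14)) * r ^ 10)
        * Real.exp ((4 + 866 * c ^ 4) * ((b - t1) * (g ^ 2 / r ^ 6) ^ 2)) :=
        mul_le_mul e1 e5 (Real.exp_pos _).le (p0.trans e1)
    _ = _ := by ring

end Pool.Agent.W991.HE
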